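import Pool.Agent.H211.HY.Stm1
import Pool.Graph.R_seed8.H790R3.RB.TWR

/-!
# HY (helper211): S_FACT, the critical points with their multiplicities
-/

set_option autoImplicit false

open Topology Filter Metric Set MeasureTheory Polynomial

namespace Pool.Agent.H100.HY211

open Pool.Agent.H790R3.RB Pool.Agent.H211.HY

/-- a monic polynomial over `ℂ` is a product over an enumeration of its distinct roots -/
theorem factor (p : ℂ[X]) : ∃ (k : ℕ) (c : Fin k → ℂ) (m : Fin k → ℕ), Function.Injective c ∧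
    (∀ i, 1 ≤ m i) ∧ ∑ i, m i = p.natDegree ∧
    ∀ ζ : ℂ, p.eval ζ = p.leadingCoeff * ∏ i, (ζ - c i) ^ m i := by
  classical
  by_cases hp : p = 0
  · subst hp
    refine ⟨0, Fin.elim0, Fin.elim0, fun i => i.elim0, fun i => i.elim0, ?_, ?_⟩ <;> simp
  set s := p.roots.toFinset with hs
  let e := s.equivFin
  refine ⟨s.card, fun i => (e.symm i : ℂ), fun i => p.roots.count (e.symm i : ℂ), ?_, ?_, ?_, ?_⟩
  · intro i j hij
    exact e.symm.injective (Subtype.ext hij)
  · intro i
    have h : ((e.symm i : s) : ℂ) ∈ p.roots := Multiset.mem_toFinset.1 (e.symm i).2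
    exact Multiset.one_le_count_iff_mem.2 h
  · have h1 : ∑ i, p.roots.count (e.symm i : ℂ) = ∑ z : s, p.roots.count (z : ℂ) :=
      Equiv.sum_comp e.symm fun z : s => p.roots.count (z : ℂ)
    rw [h1, Finset.sum_coe_sort s fun z => p.roots.count z, Multiset.toFinset_sum_count_eq]
    exact IsAlgClosed.card_roots_eq_natDegree
  · intro ζ
    have h0 := IsAlgClosed.splits p
    have h1 := h0.eq_prod_roots
    have h2 : p.eval ζ = p.leadingCoeff * (p.roots.map fun a => ζ - a).prod := by
      conv_lhs => rw [h1]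
      rw [eval_mul, eval_C, eval_multiset_prod, Multiset.map_map]
      simp
    rw [h2, Finset.prod_multiset_map_count]
    congr 1
    have h3 : ∏ i, (ζ - (e.symm i : ℂ)) ^ p.roots.count (e.symm i : ℂ) =
        ∏ z : s, (ζ - (z : ℂ)) ^ p.roots.count (z : ℂ) :=
      Equiv.prod_comp e.symm fun z : s => (ζ - (z : ℂ)) ^ p.roots.count (z : ℂ)
    rw [h3, Finset.prod_coe_sort s fun z => (ζ - z) ^ p.roots.count z]

theorem t_FACT : S_FACT := by
  intro d x hd hx
  obtain ⟨P, hP1, hP2, hP3⟩ := (WR d x hd).2.1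
  have hdeg : P.natDegree = 2 * d - 2 := by
    refine le_antisymm hP1 (le_natDegree_of_ne_zero ?_)
    rw [hP3]
    exact hx
  have hlead : P.leadingCoeff = wr x (1, 0) := by
    rw [leadingCoeff, hdeg, hP3]
  obtain ⟨k, c, m, h1, h2, h3, h4⟩ := factor P
  refine ⟨k, c, m, h1, h2, h3.trans hdeg, fun ζ => ?_⟩
  rw [← hP2 ζ, h4 ζ, hlead]

end Pool.Agent.H100.HY211
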